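import Pool.Agent.LibCod83.Main

/-!
Complexes of groups: definitions.  Finitely supported chains of ordered tuples.
-/

set_option autoImplicit false

namespace Pool.Agent.LibCG83

open Pool.Agent.LibZIS Pool.Agent.LibCod83

/-- the boundary of a finitely supported chain of ordered tuples: the alternating sum of the chains
obtained by leaving out one entry.  For `q = 0` it is the augmentation. -/
noncomputable def bdT {A : Type} {q : ℕ} :
    ((Fin (q + 1) → A) →₀ ℤ) →ₗ[ℤ] ((Fin q → A) →₀ ℤ) :=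
  ∑ i : Fin (q + 1), (-1 : ℤ) ^ (i : ℕ) • Finsupp.lmapDomain ℤ ℤ (fun x => x ∘ i.succAbove)

/-- the chain `c` is a combination of tuples whose entries lie in one member of `K`. -/
def Sup {V : Type} (K : Set (Set V)) {q : ℕ} (c : (Fin q → V) →₀ ℤ) : Prop :=
  ∀ x ∈ c.support, ∃ s ∈ K, ∀ i, x i ∈ s

/-- the ordered chain complex of the family `K` of subsets of `V` is exact in degrees `-1, 0, …, N`,
that is, the simplicial complex which it generates is nonempty, connected and has no homology in the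
degrees `1, …, N`. -/
def Acyc {V : Type} (K : Set (Set V)) (N : ℕ) : Prop :=
  (∃ s ∈ K, s.Nonempty) ∧ ∀ q ≤ N, ∀ c : (Fin (q + 1) → V) →₀ ℤ, Sup K c → bdT c = 0 →
    ∃ b : (Fin (q + 2) → V) →₀ ℤ, Sup K b ∧ bdT b = c

section alt

variable {W : Type} {κ : Type} [LinearOrder κ]

open Classical in
/-- the alternating sum of the orderings of `x` in which the colours increase strictly. -/
noncomputable def alt (col : W → κ) {q : ℕ} (x : Fin q → W) : (Fin q → W) →₀ ℤ :=
  ∑ π : Equiv.Perm (Fin q), (Equiv.Perm.sign π : ℤ) •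
    (if StrictMono (col ∘ x ∘ π) then Finsupp.single (x ∘ π) 1 else 0)

/-- the linear extension of `x ↦ alt (w ∘ x)`. -/
noncomputable def altL {V : Type} (w : V → W) (col : W → κ) (q : ℕ) :
    ((Fin q → V) →₀ ℤ) →ₗ[ℤ] ((Fin q → W) →₀ ℤ) :=
  Finsupp.lsum ℤ fun x => LinearMap.toSpanSingleton ℤ _ (alt col (w ∘ x))

end alt

/-- families of tuples in a `G`-set `A`, closed under faces and translations. -/
structure Cx (G : Type) [Group G] (A : Type) [MulAction G A] where
  /-- the tuples of the family -/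
  P : ∀ q : ℕ, (Fin q → A) → Prop
  face : ∀ (q : ℕ) (x : Fin (q + 1) → A) (i : Fin (q + 1)), P (q + 1) x → P q (x ∘ i.succAbove)
  inv : ∀ (q : ℕ) (g : G) (x : Fin q → A), P q x → P q (g • x)

section cx

variable {G : Type} [Group G] {A : Type} [MulAction G A] (X : Cx G A)

/-- the tuples of length `q`. -/
@[ext]
structure Cx.T (q : ℕ) : Type where
  /-- the tuple -/
  val : Fin q → A
  prop : X.P q val

instance (q : ℕ) : MulAction G (X.T q) where
  smul g x := ⟨g • x.1, X.inv q g x.1 x.2⟩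
  one_smul x := Cx.T.ext (one_smul G x.1)
  mul_smul g h x := Cx.T.ext (mul_smul g h x.1)

lemma Cx.smul_val {q : ℕ} (g : G) (x : X.T q) : (g • x).1 = g • x.1 := rfl

lemma Cx.val_injective {q : ℕ} : Function.Injective (Cx.T.val : X.T q → (Fin q → A)) :=
  fun _ _ h => Cx.T.ext h

/-- the module of chains. -/
noncomputable abbrev Cx.D (q : ℕ) : Rep.{0} ℤ G := Rep.ofMulAction ℤ G (X.T q)

/-- the chains of the family as chains of tuples. -/
noncomputable def Cx.emb (q : ℕ) : MonoidAlgebra ℤ (X.T q) →ₗ[ℤ] ((Fin q → A) →₀ ℤ) :=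
  Finsupp.lmapDomain ℤ ℤ Cx.T.val ∘ₗ (MonoidAlgebra.coeffLinearEquiv ℤ).toLinearMap

end cx

/-- the tuples whose entries lie in one member of the invariant family `K`. -/
def simp (G : Type) [Group G] {V : Type} [MulAction G V] (K : Set (Set V))
    (hK : ∀ g : G, ∀ s ∈ K, (fun v => g • v) '' s ∈ K) : Cx G V where
  P := fun _ x => ∃ s ∈ K, ∀ i, x i ∈ s
  face := fun _ _ i ⟨s, hs, h⟩ => ⟨s, hs, fun j => h (i.succAbove j)⟩
  inv := fun _ g _ ⟨s, hs, h⟩ => ⟨_, hK g s hs, fun j => ⟨_, h j, rfl⟩⟩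

/-- the nerve: tuples in `W` with strictly increasing colours which are met by a member of `K`. -/
def ner {G : Type} [Group G] {V W : Type} [MulAction G V] [MulAction G W] (K : Set (Set V))
    (hK : ∀ g : G, ∀ s ∈ K, (fun v => g • v) '' s ∈ K) {N : ℕ} (col : W → Fin (N + 1))
    (hcol : ∀ (g : G) (x : W), col (g • x) = col x) (w : V → W)
    (hw : ∀ (g : G) (v : V), w (g • v) = g • w v) : Cx G W where
  P := fun _ x => StrictMono (col ∘ x) ∧ ∃ s ∈ K, ∀ i, ∃ v ∈ s, w v = x i
  face := fun _ _ i ⟨h1, s, hs, h⟩ =>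
    ⟨h1.comp (Fin.strictMono_succAbove i), s, hs, fun j => h (i.succAbove j)⟩
  inv := fun _ g x ⟨h1, s, hs, h⟩ => by
    refine ⟨?_, _, hK g s hs, fun j => ?_⟩
    · have : col ∘ (g • x) = col ∘ x := funext fun j => hcol g (x j)
      rwa [this]
    · obtain ⟨v, hv, hvx⟩ := h j
      exact ⟨g • v, ⟨v, hv, rfl⟩, by rw [hw, hvx]; rfl⟩

end Pool.Agent.LibCG83
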