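import Pool.Agent.LibCG83.Defs
import Pool.Agent.LibCZ83.R4

/-!
Row R6: homology of permutation modules, orbit by orbit.
-/

set_option autoImplicit false

namespace Pool.Agent.LibCG83

open CategoryTheory Pool.Agent.LibCZ83 Pool.Agent.LibCod83

variable {G : Type} [Group G]

/-- restriction of chains to an orbit. -/
noncomputable def resL {X : Type} [MulAction G X] (x : X) :
    MonoidAlgebra ℤ X →ₗ[ℤ] MonoidAlgebra ℤ (MulAction.orbit G x) :=
  (MonoidAlgebra.coeffLinearEquiv ℤ).symm.toLinearMap ∘ₗ
    (Finsupp.lcomapDomain Subtype.val Subtype.val_injective) ∘ₗ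
      (MonoidAlgebra.coeffLinearEquiv ℤ).toLinearMap

lemma resL_coeff {X : Type} [MulAction G X] (x : X) (c : MonoidAlgebra ℤ X)
    (y : MulAction.orbit G x) : (resL x c).coeff y = c.coeff y.1 := rfl

/-- restriction of chains to an orbit. -/
noncomputable def resO {X : Type} [MulAction G X] (x : X) :
    Rep.ofMulAction ℤ G X ⟶ Rep.ofMulAction ℤ G (MulAction.orbit G x) :=
  Rep.ofHom ⟨resL x, fun g => by
    refine LinearMap.ext fun c => ?_
    show resL x (Representation.ofMulAction ℤ G X g c) =
      Representation.ofMulAction ℤ G (MulAction.orbit G x) g (resL x c)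
    apply MonoidAlgebra.coeff_injective
    refine Finsupp.ext fun y => ?_
    rw [resL_coeff, Representation.coeff_ofMulAction, Representation.coeff_ofMulAction, resL_coeff]
    rfl⟩

/-- inclusion of the chains of an orbit. -/
noncomputable def incO {X : Type} [MulAction G X] (x : X) :
    Rep.ofMulAction ℤ G (MulAction.orbit G x) ⟶ Rep.ofMulAction ℤ G X :=
  push (Subtype.val : MulAction.orbit G x → X) fun _ _ => rfl

open Classical in
lemma comp_coeff {X : Type} [MulAction G X] (x : X) (c : MonoidAlgebra ℤ X) (y : X) :
    ((resO (G := G) x ≫ incO x).hom c : MonoidAlgebra ℤ X).coeff y =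
      if y ∈ MulAction.orbit G x then c.coeff y else 0 := by
  show (MonoidAlgebra.mapDomainLinearMap ℤ ℤ (Subtype.val : MulAction.orbit G x → X)
    (resL x c)).coeff y = _
  have h1 : (MonoidAlgebra.mapDomainLinearMap ℤ ℤ (Subtype.val : MulAction.orbit G x → X)
      (resL x c)).coeff = Finsupp.mapDomain Subtype.val (resL x c).coeff := rfl
  rw [h1]
  split_ifs with h
  · have h2 := Finsupp.mapDomain_apply (Subtype.val_injective) (resL x c).coeff ⟨y, h⟩
    rw [h2, resL_coeff]
  · refine Finsupp.mapDomain_of_notMem_range _ _ ?_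
    rintro ⟨z, rfl⟩
    exact h z.2

lemma orbit_zero {X : Type} [MulAction G X] (x : X) (n : ℕ)
    (h : Subsingleton (groupHomology (Rep.trivial ℤ (MulAction.stabilizer G x) ℤ) n)) :
    Subsingleton (groupHomology (Rep.ofMulAction ℤ G (MulAction.orbit G x)) n) := by
  classical
  obtain ⟨e2⟩ := ind_trivial_iso (MulAction.stabilizer G x)
  have e3 : groupHomology (Rep.ind (MulAction.stabilizer G x).subtype
      (Rep.trivial ℤ (MulAction.stabilizer G x) ℤ)) n ≅
      groupHomology (Rep.ofMulAction ℤ G (G ⧸ MulAction.stabilizer G x)) n :=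
    (groupHomology.functor ℤ G n).mapIso e2
  have e4 : groupHomology (Rep.ind (MulAction.stabilizer G x).subtype
      (Rep.trivial ℤ (MulAction.stabilizer G x) ℤ)) n ≅
      groupHomology (Rep.trivial ℤ (MulAction.stabilizer G x) ℤ) n :=
    groupHomology.indIso (MulAction.stabilizer G x) (Rep.trivial ℤ (MulAction.stabilizer G x) ℤ) n
  have h1 : Subsingleton (groupHomology (Rep.ofMulAction ℤ G (G ⧸ MulAction.stabilizer G x)) n) :=
    (e3.symm ≪≫ e4).toLinearEquiv.toEquiv.subsingleton
  let p : MulAction.orbit G x → G ⧸ MulAction.stabilizer G x :=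
    MulAction.orbitEquivQuotientStabilizer G x
  let p' : G ⧸ MulAction.stabilizer G x → MulAction.orbit G x :=
    (MulAction.orbitEquivQuotientStabilizer G x).symm
  have hp' : ∀ (g : G) (y : G ⧸ MulAction.stabilizer G x), p' (g • y) = g • p' y := by
    intro g y
    apply Subtype.ext
    exact MulAction.ofQuotientStabilizer_smul G x g y
  have hp : ∀ (g : G) (y : MulAction.orbit G x), p (g • y) = g • p y := by
    intro g y
    have h2 := hp' g (p y)
    have h3 : p' (p y) = y := Equiv.symm_apply_apply _ _
    rw [h3] at h2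
    rw [← h2]
    exact Equiv.apply_symm_apply _ _
  have hcomp : push p hp ≫ push p' hp' = 𝟙 _ := by
    apply Rep.hom_ext
    refine DFunLike.ext _ _ fun c => ?_
    show (MonoidAlgebra.mapDomainLinearMap ℤ ℤ p' (MonoidAlgebra.mapDomainLinearMap ℤ ℤ p
      (c : MonoidAlgebra ℤ (MulAction.orbit G x)))) = c
    induction c using MonoidAlgebra.induction_linear with
    | zero => simp
    | add a b ha hb => rw [map_add, map_add, ha, hb]
    | single b r =>
      rw [MonoidAlgebra.mapDomainLinearMap_single, MonoidAlgebra.mapDomainLinearMap_single]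
      congr 1
      exact Equiv.symm_apply_apply _ _
  refine ⟨fun u v => ?_⟩
  have hid : ∀ u : groupHomology (Rep.ofMulAction ℤ G (MulAction.orbit G x)) n,
      ((groupHomology.functor ℤ G n).map (push p' hp')).hom
        (((groupHomology.functor ℤ G n).map (push p hp)).hom u) = u := by
    intro u
    have h2 : (groupHomology.functor ℤ G n).map (push p hp) ≫
        (groupHomology.functor ℤ G n).map (push p' hp') = 𝟙 _ := by
      rw [← CategoryTheory.Functor.map_comp, hcomp, CategoryTheory.Functor.map_id]
    exact congrArg (fun f => f.hom u) h2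
  rw [← hid u, ← hid v]
  congr 1
  exact Subsingleton.elim (α := groupHomology (Rep.ofMulAction ℤ G
    (G ⧸ MulAction.stabilizer G x)) n) _ _

lemma exists_map_id {M N : Rep.{0} ℤ G} (φ : M ⟶ N) (n : ℕ) (x : groupHomology.cycles M n) :
    ∃ y : groupHomology.cycles N n,
      ((groupHomology.functor ℤ G n).map φ).hom (groupHomology.π M n x) =
        groupHomology.π N n y ∧
      (groupHomology.iCycles N n).hom y =
        (((groupHomology.chainsFunctor ℤ G).map φ).f n).hom
          ((groupHomology.iCycles M n).hom x) :=
  @exists_map G _ G _ M N (MonoidHom.id G) φ n x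

theorem perm_zero (X : Type) [MulAction G X] (n : ℕ)
    (h : ∀ x : X, Subsingleton
      (groupHomology (Rep.trivial ℤ (MulAction.stabilizer G x) ℤ) n)) :
    Subsingleton (groupHomology (Rep.ofMulAction ℤ G X) n) := by
  classical
  refine ⟨fun u v => ?_⟩
  suffices h0 : ∀ u : groupHomology (Rep.ofMulAction ℤ G X) n, u = 0 by rw [h0 u, h0 v]
  clear u v
  intro u
  induction u using groupHomology_induction_on with
  | h z =>
  -- representatives of orbits
  let out : MulAction.orbitRel.Quotient G X → X := Quotient.out
  have hout : ∀ x : X, x ∈ MulAction.orbit G (out (Quotient.mk _ x)) := by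
    intro x
    have h1 : Quotient.mk (MulAction.orbitRel G X) (out (Quotient.mk _ x)) = Quotient.mk _ x :=
      Quotient.out_eq _
    have h2 := Quotient.exact h1.symm
    exact h2
  have houniq : ∀ (x : X) (O : MulAction.orbitRel.Quotient G X), x ∈ MulAction.orbit G (out O) →
      O = Quotient.mk _ x := by
    intro x O hx
    have h1 : Quotient.mk (MulAction.orbitRel G X) x = Quotient.mk _ (out O) := Quotient.sound hx
    rw [h1]
    exact (Quotient.out_eq O).symm
  -- the chain
  let c : (Fin n → G) →₀ MonoidAlgebra ℤ X := groupHomology.iCycles (Rep.ofMulAction ℤ G X) n z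
  let T : Finset (MulAction.orbitRel.Quotient G X) :=
    c.support.biUnion fun g => (c g).coeff.support.image (Quotient.mk _)
  choose y hy1 hy2 using fun O : MulAction.orbitRel.Quotient G X =>
    exists_map_id (resO (out O) ≫ incO (out O)) n z
  have hsum : ∑ O ∈ T, y O = z := by
    have hinj : Function.Injective (groupHomology.iCycles (Rep.ofMulAction ℤ G X) n).hom :=
      (ModuleCat.mono_iff_injective _).1 inferInstance
    apply hinj
    rw [map_sum]
    have h1 : ∀ O, (groupHomology.iCycles (Rep.ofMulAction ℤ G X) n).hom (y O) =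
        Finsupp.mapRange (resO (out O) ≫ incO (out O)).hom (map_zero _) c := by
      intro O
      refine (hy2 O).trans ?_
      exact congrArg (fun f => f c)
        (groupHomology.chainsMap_id_f_hom_eq_mapRange n (resO (out O) ≫ incO (out O)))
    have h2 : ∑ O ∈ T, (groupHomology.iCycles (Rep.ofMulAction ℤ G X) n).hom (y O) = c := by
      rw [Finset.sum_congr rfl fun O _ => h1 O]
      refine Finsupp.ext fun g => ?_
      rw [Finsupp.finsetSum_apply]
      simp only [Finsupp.mapRange_apply]
      apply MonoidAlgebra.coeff_injective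
      refine Finsupp.ext fun x => ?_
      have h3 : ∀ O, ((resO (G := G) (out O) ≫ incO (out O)).hom (c g) : MonoidAlgebra ℤ X).coeff x =
          if O = Quotient.mk _ x then (c g).coeff x else 0 := by
        intro O
        rw [comp_coeff]
        by_cases hO : O = Quotient.mk _ x
        · rw [if_pos hO, if_pos (by rw [hO]; exact hout x)]
        · rw [if_neg hO, if_neg fun h4 => hO (houniq x O h4)]
      have h4 : (∑ O ∈ T, ((resO (G := G) (out O) ≫ incO (out O)).hom (c g) : MonoidAlgebra ℤ X)).coeff x =
          ∑ O ∈ T, ((resO (G := G) (out O) ≫ incO (out O)).hom (c g) : MonoidAlgebra ℤ X).coeff x := by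
        rw [MonoidAlgebra.coeff_sum, Finsupp.finsetSum_apply]
      refine h4.trans ?_
      rw [Finset.sum_congr rfl fun O _ => h3 O, Finset.sum_ite_eq']
      split_ifs with h5
      · rfl
      · by_contra h6
        apply h5
        have h7 : (c g).coeff x ≠ 0 := fun h8 => h6 h8.symm
        refine Finset.mem_biUnion.2 ⟨g, ?_, Finset.mem_image_of_mem _ (Finsupp.mem_support_iff.2 h7)⟩
        rw [Finsupp.mem_support_iff]
        intro h8
        apply h7
        rw [h8]
        rfl
    exact h2
  rw [← hsum, map_sum]
  refine Finset.sum_eq_zero fun O _ => ?_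
  rw [← hy1 O]
  rw [CategoryTheory.Functor.map_comp]
  have h4 := orbit_zero (out O) n (h (out O))
  have h5 : ((groupHomology.functor ℤ G n).map (resO (out O))).hom
      (groupHomology.π (Rep.ofMulAction ℤ G X) n z) = 0 :=
    Subsingleton.elim (α := groupHomology (Rep.ofMulAction ℤ G
      (MulAction.orbit G (out O))) n) _ _
  show ((groupHomology.functor ℤ G n).map (incO (out O))).hom
    (((groupHomology.functor ℤ G n).map (resO (out O))).hom
      (groupHomology.π (Rep.ofMulAction ℤ G X) n z)) = 0
  rw [h5]
  exact map_zero _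

end Pool.Agent.LibCG83
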