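import Pool.Agent.LibCG83.R1

/-!
Row R2: `d ∘ d = 0` for chains of tuples.
-/

set_option autoImplicit false

namespace Pool.Agent.LibCG83

lemma bdT_bdT_single {A : Type} {q : ℕ} (x : Fin (q + 2) → A) (a : ℤ) :
    bdT (bdT (Finsupp.single x a)) = 0 := by
  rw [bdT_single, map_sum]
  simp only [map_smul, bdT_single, Finset.smul_sum]
  rw [← Finset.sum_product' Finset.univ Finset.univ
    (fun (i : Fin (q + 2)) (j : Fin (q + 1)) =>
      (-1 : ℤ) ^ (i : ℕ) • (-1 : ℤ) ^ (j : ℕ) •
        Finsupp.single ((x ∘ i.succAbove) ∘ j.succAbove) a)]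
  refine Finset.sum_involution
    (fun (p : Fin (q + 2) × Fin (q + 1)) _ => (p.1.succAbove p.2, p.2.predAbove p.1)) ?_ ?_ ?_ ?_
  · rintro ⟨i, j⟩ _
    have h1 : (x ∘ (i.succAbove j).succAbove) ∘ (j.predAbove i).succAbove =
        (x ∘ i.succAbove) ∘ j.succAbove := by
      funext m
      show x ((i.succAbove j).succAbove ((j.predAbove i).succAbove m)) = x _
      rw [Fin.succAbove_succAbove_succAbove_predAbove]
    simp only
    rw [h1, smul_smul, smul_smul, ← pow_add, ← pow_add, Fin.neg_one_pow_succAbove_add_predAbove,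
      neg_smul, add_neg_cancel]
  · rintro ⟨a, b⟩ _ _ h
    have h1 := congrArg Prod.fst h
    exact Fin.succAbove_ne _ _ h1
  · intro p _
    exact Finset.mem_univ _
  · rintro ⟨a, b⟩ _
    simp only
    rw [Fin.succAbove_succAbove_predAbove, Fin.predAbove_predAbove_succAbove]

theorem bdT_bdT {A : Type} {q : ℕ} (c : (Fin (q + 2) → A) →₀ ℤ) : bdT (bdT c) = 0 := by
  induction c using Finsupp.induction_linear with
  | zero => simp
  | add x y hx hy => rw [map_add, map_add, hx, hy, add_zero]
  | single x a => exact bdT_bdT_single x a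

end Pool.Agent.LibCG83
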