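import Pool.Agent.LibCG83.Defs

/-!
Row R3: maps of representations from equivariant maps of chains of tuples.
-/

set_option autoImplicit false

namespace Pool.Agent.LibCG83

open CategoryTheory

variable {G : Type} [Group G] {A B : Type} [MulAction G A] [MulAction G B] (X : Cx G A) (Y : Cx G B)

lemma emb_single {q : ℕ} (x : X.T q) (a : ℤ) :
    X.emb q (MonoidAlgebra.single x a) = Finsupp.single x.1 a := by
  rw [Cx.emb, LinearMap.comp_apply]
  show Finsupp.mapDomain Cx.T.val (MonoidAlgebra.coeff (MonoidAlgebra.single x a)) = _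
  rw [MonoidAlgebra.coeff_single, Finsupp.mapDomain_single]

lemma emb_injective (q : ℕ) : Function.Injective (X.emb q) := by
  intro c c' h
  have h1 : Finsupp.mapDomain Cx.T.val (MonoidAlgebra.coeff c) =
      Finsupp.mapDomain (Cx.T.val : X.T q → (Fin q → A)) (MonoidAlgebra.coeff c') := h
  have h2 := Finsupp.mapDomain_injective X.val_injective h1
  exact MonoidAlgebra.coeff_injective h2

lemma emb_support {q : ℕ} (c : MonoidAlgebra ℤ (X.T q)) : ∀ x ∈ (X.emb q c).support, X.P q x := by
  classical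
  intro x hx
  have h1 : x ∈ (Finsupp.mapDomain (Cx.T.val : X.T q → (Fin q → A))
      (MonoidAlgebra.coeff c)).support := hx
  have h2 := Finsupp.mapDomain_support h1
  rw [Finset.mem_image] at h2
  obtain ⟨y, _, rfl⟩ := h2
  exact y.2

lemma exists_emb {q : ℕ} (b : (Fin q → A) →₀ ℤ) (hb : ∀ x ∈ b.support, X.P q x) :
    ∃ c : MonoidAlgebra ℤ (X.T q), X.emb q c = b := by
  classical
  refine ⟨∑ x ∈ b.support.attach, MonoidAlgebra.single (⟨x.1, hb x.1 x.2⟩ : X.T q) (b x.1), ?_⟩
  rw [map_sum]
  simp only [emb_single]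
  rw [Finset.sum_attach b.support (fun x => Finsupp.single x (b x))]
  exact Finsupp.sum_single b

lemma emb_act {q : ℕ} (g : G) (c : MonoidAlgebra ℤ (X.T q)) :
    X.emb q (Representation.ofMulAction ℤ G (X.T q) g c) =
      (X.emb q c).mapDomain (fun x => g • x) := by
  have h1 : Finsupp.mapDomain (Cx.T.val : X.T q → (Fin q → A))
      (Finsupp.mapDomain (g • ·) (MonoidAlgebra.coeff c)) =
      (Finsupp.mapDomain Cx.T.val (MonoidAlgebra.coeff c)).mapDomain (fun x => g • x) := by
    rw [← Finsupp.mapDomain_comp, ← Finsupp.mapDomain_comp]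
    rfl
  exact h1

theorem exists_map {q r : ℕ} (F : ((Fin q → A) →₀ ℤ) →ₗ[ℤ] ((Fin r → B) →₀ ℤ))
    (hF : ∀ x, X.P q x → ∀ y ∈ (F (Finsupp.single x 1)).support, Y.P r y)
    (heq : ∀ (g : G) (x : Fin q → A), X.P q x →
      F (Finsupp.single (g • x) 1) = (F (Finsupp.single x 1)).mapDomain (fun y => g • y)) :
    ∃ f : X.D q ⟶ Y.D r, ∀ c : MonoidAlgebra ℤ (X.T q),
      Y.emb r (f.hom c : MonoidAlgebra ℤ (Y.T r)) = F (X.emb q c) := by
  classical
  choose f hf using fun x : X.T q => exists_emb Y (F (Finsupp.single x.1 1)) (hF x.1 x.2)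
  let L : MonoidAlgebra ℤ (X.T q) →ₗ[ℤ] MonoidAlgebra ℤ (Y.T r) :=
    (Finsupp.lsum ℤ fun x : X.T q => LinearMap.toSpanSingleton ℤ _ (f x)) ∘ₗ
      (MonoidAlgebra.coeffLinearEquiv ℤ).toLinearMap
  have hL1 : ∀ (x : X.T q) (a : ℤ), L (MonoidAlgebra.single x a) = a • f x := by
    intro x a
    show (Finsupp.lsum ℤ fun x : X.T q => LinearMap.toSpanSingleton ℤ _ (f x))
      (MonoidAlgebra.coeff (MonoidAlgebra.single x a)) = _
    rw [MonoidAlgebra.coeff_single]
    simp
  have hL : ∀ c : MonoidAlgebra ℤ (X.T q), Y.emb r (L c) = F (X.emb q c) := by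
    intro c
    induction c using MonoidAlgebra.induction_linear with
    | zero => simp
    | add x y hx hy => rw [map_add, map_add, hx, hy, map_add, map_add]
    | single x a =>
      rw [hL1, map_smul, hf, emb_single, ← map_smul, Finsupp.smul_single, smul_eq_mul, mul_one]
  refine ⟨Rep.ofHom ⟨L, fun g => ?_⟩, hL⟩
  refine LinearMap.ext fun c => ?_
  apply emb_injective Y r
  show Y.emb r (L (Representation.ofMulAction ℤ G (X.T q) g c)) =
    Y.emb r (Representation.ofMulAction ℤ G (Y.T r) g (L c))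
  rw [hL, emb_act, emb_act, hL]
  induction c using MonoidAlgebra.induction_linear with
  | zero => simp
  | add x y hx hy => rw [map_add, Finsupp.mapDomain_add, map_add, hx, hy, map_add,
      Finsupp.mapDomain_add]
  | single x a =>
    have h1 : ∀ z : Fin q → A, (Finsupp.single z a : (Fin q → A) →₀ ℤ) = a • Finsupp.single z 1 := by
      intro z
      rw [Finsupp.smul_single, smul_eq_mul, mul_one]
    rw [emb_single, Finsupp.mapDomain_single, h1, map_smul, heq g x.1 x.2, h1 x.1, map_smul,
      Finsupp.mapDomain_smul]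

end Pool.Agent.LibCG83
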