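import Pool.Agent.LibCG83.R1
import Pool.Agent.LibCG83.R2
import Pool.Agent.LibCG83.R3

/-!
Row R8: the chain complexes and the chain map as maps of representations.
-/

set_option autoImplicit false

namespace Pool.Agent.LibCG83

open CategoryTheory

variable {G : Type} [Group G]

lemma hom_ext_emb {A : Type} [MulAction G A] (Y : Cx G A) {M : Rep.{0} ℤ G} {q : ℕ}
    (f f' : M ⟶ Y.D q)
    (h : ∀ c : M, Y.emb q (f.hom c : MonoidAlgebra ℤ (Y.T q)) =
      Y.emb q (f'.hom c : MonoidAlgebra ℤ (Y.T q))) : f = f' := by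
  apply Rep.hom_ext
  exact DFunLike.ext _ _ fun c => emb_injective Y q (h c)

theorem exists_d {A : Type} [MulAction G A] (X : Cx G A) (q : ℕ) :
    ∃ f : X.D (q + 1) ⟶ X.D q, ∀ c : MonoidAlgebra ℤ (X.T (q + 1)),
      X.emb q (f.hom c : MonoidAlgebra ℤ (X.T q)) = bdT (X.emb (q + 1) c) := by
  classical
  refine exists_map X X bdT ?_ ?_
  · intro x hx y hy
    rw [bdT_single] at hy
    have h1 := Finsupp.support_finsetSum hy
    rw [Finset.mem_biUnion] at h1
    obtain ⟨i, _, hi⟩ := h1
    have h2 := Finsupp.support_smul hi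
    have h3 := Finsupp.support_single_subset h2
    rw [Finset.mem_singleton] at h3
    rw [h3]
    exact X.face q x i hx
  · intro g x _
    rw [bdT_single, bdT_single, Finsupp.mapDomain_finsetSum]
    refine Finset.sum_congr rfl fun i _ => ?_
    rw [Finsupp.mapDomain_smul, Finsupp.mapDomain_single]
    rfl

variable {V W : Type} [MulAction G V] [MulAction G W] (K : Set (Set V))
  (hK : ∀ g : G, ∀ s ∈ K, (fun v => g • v) '' s ∈ K) {N : ℕ} (col : W → Fin (N + 1))
  (hcol : ∀ (g : G) (x : W), col (g • x) = col x) (w : V → W)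
  (hw : ∀ (g : G) (v : V), w (g • v) = g • w v)

theorem exists_phi (q : ℕ) :
    ∃ f : (simp G K hK).D q ⟶ (ner K hK col hcol w hw).D q,
      ∀ c : MonoidAlgebra ℤ ((simp G K hK).T q),
        (ner K hK col hcol w hw).emb q (f.hom c : MonoidAlgebra ℤ ((ner K hK col hcol w hw).T q)) =
          altL w col q ((simp G K hK).emb q c) := by
  classical
  refine exists_map (simp G K hK) (ner K hK col hcol w hw) (altL w col q) ?_ ?_
  · intro x hx y hy
    obtain ⟨s, hs, hxs⟩ := hx
    rw [altL_single, one_smul, alt] at hy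
    have h1 := Finsupp.support_finsetSum hy
    rw [Finset.mem_biUnion] at h1
    obtain ⟨π, _, hi⟩ := h1
    have h2 := Finsupp.support_smul hi
    by_cases h4 : StrictMono (col ∘ (w ∘ x) ∘ π)
    · rw [if_pos h4] at h2
      have h3 := Finsupp.support_single_subset h2
      rw [Finset.mem_singleton] at h3
      rw [h3]
      exact ⟨h4, s, hs, fun i => ⟨x (π i), hxs _, rfl⟩⟩
    · rw [if_neg h4] at h2
      simp at h2
  · intro g x _
    rw [altL_single, altL_single, one_smul, one_smul, alt, alt, Finsupp.mapDomain_finsetSum]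
    refine Finset.sum_congr rfl fun π _ => ?_
    rw [Finsupp.mapDomain_smul]
    congr 1
    have h1 : (w ∘ (g • x)) ∘ π = g • ((w ∘ x) ∘ π) := funext fun i => hw g (x (π i))
    have h2 : col ∘ (g • ((w ∘ x) ∘ π)) = col ∘ (w ∘ x) ∘ π := funext fun i => hcol g _
    rw [h1, h2]
    split_ifs with h3
    · rw [Finsupp.mapDomain_single]
    · rw [Finsupp.mapDomain_zero]

/-- the nerve has no simplices with more than `N + 1` vertices. -/
lemma ner_empty (c : MonoidAlgebra ℤ ((ner K hK col hcol w hw).T (N + 2))) : c = 0 := by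
  have he : IsEmpty ((ner K hK col hcol w hw).T (N + 2)) := by
    refine ⟨fun x => ?_⟩
    have h1 := x.2.1.injective
    have h2 := Fintype.card_le_of_injective _ h1
    simp at h2
  apply MonoidAlgebra.coeff_injective
  exact Finsupp.ext fun x => he.elim x

/-- the chain map has a left inverse in the lowest degree. -/
theorem exists_retract (f : (simp G K hK).D 0 ⟶ (ner K hK col hcol w hw).D 0)
    (hf : ∀ c : MonoidAlgebra ℤ ((simp G K hK).T 0),
        (ner K hK col hcol w hw).emb 0 (f.hom c : MonoidAlgebra ℤ ((ner K hK col hcol w hw).T 0)) =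
          altL w col 0 ((simp G K hK).emb 0 c)) :
    ∃ r : (ner K hK col hcol w hw).D 0 ⟶ (simp G K hK).D 0, f ≫ r = 𝟙 _ := by
  classical
  obtain ⟨r, hr⟩ := exists_map (ner K hK col hcol w hw) (simp G K hK) (q := 0) (r := 0)
    (Finsupp.lmapDomain ℤ ℤ fun _ => (Fin.elim0 : Fin 0 → V)) (by
      intro x hx y _
      obtain ⟨_, s, hs, _⟩ := hx
      exact ⟨s, hs, fun i => i.elim0⟩) (by
      intro g x _
      rw [Finsupp.lmapDomain_apply, Finsupp.lmapDomain_apply, Finsupp.mapDomain_single,
        Finsupp.mapDomain_single, Finsupp.mapDomain_single]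
      congr 1
      exact Subsingleton.elim _ _)
  refine ⟨r, hom_ext_emb _ _ _ fun c => ?_⟩
  have h1 : (simp G K hK).emb 0 ((f ≫ r).hom c : MonoidAlgebra ℤ ((simp G K hK).T 0)) =
      Finsupp.lmapDomain ℤ ℤ (fun _ => (Fin.elim0 : Fin 0 → V))
        (altL w col 0 ((simp G K hK).emb 0 c)) := by
    rw [← hf]
    exact hr _
  refine h1.trans ?_
  show _ = (simp G K hK).emb 0 c
  generalize (simp G K hK).emb 0 c = b
  induction b using Finsupp.induction_linear with
  | zero => simp
  | add x y hx hy => rw [map_add, map_add, hx, hy]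
  | single x a =>
    rw [altL_single, alt_of_strictMono col (w ∘ x) (fun i => i.elim0), map_smul,
      Finsupp.lmapDomain_apply, Finsupp.mapDomain_single, Finsupp.smul_single, smul_eq_mul, mul_one]
    congr 1
    exact Subsingleton.elim _ _

end Pool.Agent.LibCG83
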