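import Pool.Agent.LibCG83.R5
import Pool.Agent.LibCG83.R6
import Pool.Agent.LibCG83.R8

/-!
Complexes of groups: the main theorem.
-/

set_option autoImplicit false

namespace Pool.Agent.LibCG83

open Pool.Agent.LibZIS Pool.Agent.LibCod83 CategoryTheory

universe v

/-- the zeroth cohomology of a permutation module on one point. -/
lemma nontrivial_H0 {G : Type} [Group G] {X : Type} [MulAction G X] [Subsingleton X] [Nonempty X] :
    Nontrivial (groupCohomology (Rep.ofMulAction ℤ G X) 0) := by
  obtain ⟨x⟩ : Nonempty X := inferInstance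
  have hinv : ∀ g : G, Representation.ofMulAction ℤ G X g (MonoidAlgebra.single x 1) =
      MonoidAlgebra.single x 1 := by
    intro g
    rw [Representation.ofMulAction_single]
    congr 1
    exact Subsingleton.elim _ _
  let v : (Rep.ofMulAction ℤ G X).ρ.invariants := ⟨MonoidAlgebra.single x 1, hinv⟩
  have hv : v ≠ 0 := by
    intro h
    have h1 : (MonoidAlgebra.single x (1 : ℤ) : MonoidAlgebra ℤ X) = 0 := congrArg Subtype.val h
    have h2 := congrArg (fun a : MonoidAlgebra ℤ X => a.coeff x) h1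
    simp at h2
  have h3 : Nontrivial (Rep.ofMulAction ℤ G X).ρ.invariants := ⟨v, 0, hv⟩
  exact (groupCohomology.H0Iso (Rep.ofMulAction ℤ G X)).toLinearEquiv.toEquiv.nontrivial

variable {G : Type} [Group G] {E : Type v} [TopologicalSpace E] [PathConnectedSpace E]
  [MulAction G E] [ContinuousConstSMul G E]

theorem main_cg (hfree : ∀ (g : G) (e : E), g • e = e → g = 1) (hE : H1Zero E) (n : ℕ)
    (hG : ∀ (M : Rep.{0} ℤ G) (j : ℕ), j ≤ n →
      Nonempty (groupCohomology M j ≅ groupHomology M (n - j)))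
    (V W : Type) [MulAction G V] [MulAction G W]
    -- an invariant family of subsets of `V`, acyclic up to degree `N`
    (K : Set (Set V)) (hK : ∀ g : G, ∀ s ∈ K, (fun v => g • v) '' s ∈ K)
    (N : ℕ) (hN : N < n) (hac : Acyc K N)
    -- `N + 1` colours, `w v` depends on the colour only within a member of `K`
    (col : W → Fin (N + 1)) (hcol : ∀ (g : G) (x : W), col (g • x) = col x)
    (w : V → W) (hw : ∀ (g : G) (v : V), w (g • v) = g • w v)
    (hcw : ∀ s ∈ K, ∀ v ∈ s, ∀ v' ∈ s, col (w v) = col (w v') → w v = w v')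
    -- the intersection of the stabilizers of `p + 1` different points `w v`, `v` in a member of `K`
    (hst : ∀ p ≤ N, ∀ s ∈ K, ∀ x : Fin (p + 1) → V, (∀ i, x i ∈ s) → Function.Injective (w ∘ x) →
      (p ≤ 2 ∧ Amenable ↥(⨅ i, MulAction.stabilizer G (w (x i)))) ∨
      Subsingleton (groupHomology
        (Rep.trivial ℤ ↥(⨅ i, MulAction.stabilizer G (w (x i))) ℤ) (n - p))) :
    ∃ i, i ≤ 2 ∧ Nontrivial (Hgy (lam G) E i) := by
  classical
  by_contra hcon
  set Dc := simp G K hK with hDc
  set Nc := ner K hK col hcol w hw with hNc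
  choose d hd using fun q => exists_d Dc q
  choose d' hd' using fun q => exists_d Nc q
  choose φ hφ using fun q => exists_phi K hK col hcol w hw q
  -- the stabilizers in the nerve
  have hstab : ∀ (q : ℕ) (y : Nc.T (q + 1)), ∃ s ∈ K, ∃ x : Fin (q + 1) → V, (∀ i, x i ∈ s) ∧
      Function.Injective (w ∘ x) ∧ y.val = w ∘ x ∧
      MulAction.stabilizer G y = ⨅ i, MulAction.stabilizer G (w (x i)) := by
    intro q y
    obtain ⟨h1, s, hs, h2⟩ := y.prop
    choose x hx1 hx2 using h2
    have h3 : y.val = w ∘ x := funext fun i => (hx2 i).symm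
    refine ⟨s, hs, x, hx1, ?_, h3, ?_⟩
    · rw [← h3]
      exact h1.injective.of_comp
    · ext g
      rw [Subgroup.mem_iInf, MulAction.mem_stabilizer_iff]
      constructor
      · intro h4 i
        rw [MulAction.mem_stabilizer_iff, hx2]
        have h5 : (g • y).val i = y.val i := by rw [h4]
        exact h5
      · intro h4
        apply Cx.T.ext
        funext i
        have h5 := h4 i
        rw [MulAction.mem_stabilizer_iff, hx2] at h5
        exact h5
  -- vanishing of the homology of the nerve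
  have hv : ∀ q ≤ N, Subsingleton (groupHomology (Nc.D (q + 1)) (n - q)) := by
    intro q hq
    refine perm_zero _ _ fun y => ?_
    obtain ⟨s, hs, x, hx1, hx2, _, hx4⟩ := hstab q y
    rw [hx4]
    rcases hst q hq s hs x hx1 hx2 with ⟨h2, h3⟩ | h3
    · rw [← not_nontrivial_iff_subsingleton]
      intro h4
      obtain ⟨i, hi, h5⟩ := main_pd hfree hE n hG _ h3 q h2 (by omega) h4
      exact hcon ⟨i, by omega, h5⟩
    · exact h3
  -- the staircase
  have hzero := staircase N n hN (fun q => Dc.D q) (fun q => Nc.D q) d d' φ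
    (fun q => hom_ext_emb Dc _ _ fun c => by
      have h1 : Dc.emb q ((d (q + 1) ≫ d q).hom c : MonoidAlgebra ℤ (Dc.T q)) =
          bdT (bdT (Dc.emb (q + 2) c)) := by
        rw [← hd (q + 1) c]
        exact hd q _
      rw [h1, bdT_bdT]
      exact (map_zero (Dc.emb q)).symm)
    (fun q => hom_ext_emb Nc _ _ fun c => by
      have h1 : Nc.emb q ((d' (q + 1) ≫ d' q).hom c : MonoidAlgebra ℤ (Nc.T q)) =
          bdT (bdT (Nc.emb (q + 2) c)) := by
        rw [← hd' (q + 1) c]
        exact hd' q _
      rw [h1, bdT_bdT]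
      exact (map_zero (Nc.emb q)).symm)
    (fun q => hom_ext_emb Nc _ _ fun c => by
      have h1 : Nc.emb q ((φ (q + 1) ≫ d' q).hom c : MonoidAlgebra ℤ (Nc.T q)) =
          bdT (altL w col (q + 1) (Dc.emb (q + 1) c)) := by
        rw [← hφ (q + 1) c]
        exact hd' q _
      have h2 : Nc.emb q ((d q ≫ φ q).hom c : MonoidAlgebra ℤ (Nc.T q)) =
          altL w col q (bdT (Dc.emb (q + 1) c)) := by
        rw [← hd q c]
        exact hφ q _
      rw [h1, h2]
      refine altL_bd w col q _ fun x hx i j => ?_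
      obtain ⟨s, hs, h3⟩ := emb_support Dc c x hx
      exact hcw s hs _ (h3 i) _ (h3 j))
    (by
      intro c
      obtain ⟨⟨s, hs, v, hvs⟩, _⟩ := hac
      let x : Dc.T 1 := ⟨fun _ => v, s, hs, fun _ => hvs⟩
      have hc : ∃ a : ℤ, Dc.emb 0 c = Finsupp.single Fin.elim0 a := by
        refine ⟨Dc.emb 0 c Fin.elim0, Finsupp.ext fun y => ?_⟩
        rw [Subsingleton.elim y Fin.elim0, Finsupp.single_eq_same]
      obtain ⟨a, ha⟩ := hc
      refine ⟨MonoidAlgebra.single x a, ?_⟩
      apply emb_injective Dc 0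
      refine (hd 0 (MonoidAlgebra.single x a)).trans ?_
      rw [emb_single, bdT_single, ha]
      rw [Fin.sum_univ_succ, Finset.univ_eq_empty, Finset.sum_empty, add_zero, Fin.val_zero,
        pow_zero, one_smul]
      congr 1
      exact Subsingleton.elim _ _)
    (by
      intro q hq c hc
      have h1 : bdT (Dc.emb (q + 1) c) = 0 := by
        rw [← hd q c]
        refine (congrArg (Dc.emb q) hc).trans (map_zero _)
      obtain ⟨b, hb1, hb2⟩ := hac.2 q hq (Dc.emb (q + 1) c)
        (fun x hx => emb_support Dc c x hx) h1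
      obtain ⟨b', hb'⟩ := exists_emb Dc b hb1
      refine ⟨b', ?_⟩
      apply emb_injective Dc (q + 1)
      refine (hd (q + 1) b').trans ?_
      rw [hb', hb2])
    (fun c => ner_empty K hK col hcol w hw c) hv
  obtain ⟨r, hr⟩ := exists_retract K hK col hcol w hw (φ 0) (hφ 0)
  have h1 : ∀ u : groupHomology (Dc.D 0) n, u = 0 := by
    intro u
    have h2 : (groupHomology.functor ℤ G n).map (φ 0) ≫ (groupHomology.functor ℤ G n).map r =
        𝟙 _ := by
      rw [← CategoryTheory.Functor.map_comp, hr, CategoryTheory.Functor.map_id]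
    have h3 : ((groupHomology.functor ℤ G n).map r).hom
        (((groupHomology.functor ℤ G n).map (φ 0)).hom u) = u := congrArg (fun f => f.hom u) h2
    rw [← h3, hzero u]
    exact map_zero _
  obtain ⟨e⟩ := hG (Dc.D 0) 0 (Nat.zero_le _)
  have hsub : Subsingleton (Dc.T 0) := ⟨fun a b => Cx.T.ext (Subsingleton.elim _ _)⟩
  have hne : Nonempty (Dc.T 0) := by
    obtain ⟨⟨s, hs, _⟩, _⟩ := hac
    exact ⟨⟨Fin.elim0, s, hs, fun i => i.elim0⟩⟩
  have h4 : Nontrivial (groupCohomology (Dc.D 0) 0) := nontrivial_H0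
  have h5 : Nontrivial (groupHomology (Dc.D 0) (n - 0)) :=
    e.symm.toLinearEquiv.toEquiv.nontrivial
  obtain ⟨a, b, hab⟩ := h5
  exact hab ((h1 a).trans (h1 b).symm)

end Pool.Agent.LibCG83
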