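import Pool.Agent.LibCG83.Defs

/-!
Row R1: the chain map identity.
-/

set_option autoImplicit false

namespace Pool.Agent.LibCG83

variable {W : Type} {κ : Type} [LinearOrder κ]

lemma bdT_single {A : Type} {q : ℕ} (x : Fin (q + 1) → A) (a : ℤ) :
    bdT (Finsupp.single x a) =
      ∑ i : Fin (q + 1), (-1 : ℤ) ^ (i : ℕ) • Finsupp.single (x ∘ i.succAbove) a := by
  simp [bdT, LinearMap.sum_apply, Finsupp.mapDomain_single]

/-- restriction of a permutation of `Fin (q + 1)` to the complement of `i`. -/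
lemma exists_restrict {q : ℕ} (π : Equiv.Perm (Fin (q + 1))) (i : Fin (q + 1)) :
    ∃ ρ : Equiv.Perm (Fin q), (π : Fin (q + 1) → Fin (q + 1)) ∘ i.succAbove =
        (π i).succAbove ∘ ρ ∧
      (Equiv.Perm.sign ρ : ℤ) = (-1) ^ (i : ℕ) * (-1) ^ (π i : ℕ) * (Equiv.Perm.sign π : ℤ) := by
  set σ : Equiv.Perm (Fin (q + 1)) := (π i).cycleRange * π * (i.cycleRange)⁻¹ with hσ
  obtain ⟨⟨p, ρ⟩, hρ⟩ : ∃ y, Equiv.Perm.decomposeFin.symm y = σ := ⟨_, Equiv.symm_apply_apply _ _⟩
  have h0 : σ 0 = 0 := by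
    simp only [hσ, Equiv.Perm.mul_apply, Equiv.Perm.inv_def, Fin.cycleRange_symm_zero,
      Fin.cycleRange_self]
  have hp : p = 0 := by
    rw [← hρ, Equiv.Perm.decomposeFin_symm_apply_zero] at h0
    exact h0
  subst hp
  refine ⟨ρ, funext fun j => ?_, ?_⟩
  · have h1 : σ j.succ = (ρ j).succ := by
      rw [← hρ, Equiv.Perm.decomposeFin_symm_apply_succ, Equiv.swap_self]
      rfl
    have h2 : σ j.succ = (π i).cycleRange (π (i.succAbove j)) := by
      simp only [hσ, Equiv.Perm.mul_apply, Equiv.Perm.inv_def, Fin.cycleRange_symm_succ]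
    have h3 : (π i).cycleRange.symm ((ρ j).succ) = π (i.succAbove j) := by
      rw [← h1, h2, Equiv.symm_apply_apply]
    rw [Fin.cycleRange_symm_succ] at h3
    exact h3.symm
  · have h1 : Equiv.Perm.sign σ = Equiv.Perm.sign ρ := by
      rw [← hρ, Equiv.Perm.decomposeFin.symm_sign, if_pos rfl, one_mul]
    rw [← h1, hσ, map_mul, map_mul, Equiv.Perm.sign_inv, Fin.sign_cycleRange,
      Fin.sign_cycleRange]
    push_cast
    ring

lemma alt_comp_perm (col : W → κ) {q : ℕ} (x : Fin q → W) (ρ : Equiv.Perm (Fin q)) :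
    alt col (x ∘ ρ) = (Equiv.Perm.sign ρ : ℤ) • alt col x := by
  classical
  unfold alt
  rw [Finset.smul_sum]
  refine Fintype.sum_equiv (Equiv.mulLeft ρ) _ _ fun π => ?_
  have h1 : (x ∘ ρ) ∘ π = x ∘ (ρ * π : Equiv.Perm (Fin q)) := rfl
  rw [Equiv.coe_mulLeft, h1, smul_smul, map_mul]
  congr 1
  have h2 : ((Equiv.Perm.sign ρ : ℤˣ) : ℤ) * (Equiv.Perm.sign ρ : ℤˣ) = 1 := by
    rw [← Units.val_mul, Int.units_mul_self, Units.val_one]
  push_cast
  rw [← mul_assoc, h2, one_mul]

lemma alt_eq_zero (col : W → κ) {q : ℕ} (x : Fin q → W) (hx : ¬ Function.Injective x) :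
    alt col x = 0 := by
  classical
  unfold alt
  refine Finset.sum_eq_zero fun π _ => ?_
  rw [if_neg, smul_zero]
  intro h
  apply hx
  have h1 : Function.Injective (x ∘ π) := h.injective.of_comp
  have h2 : x = (x ∘ π) ∘ π.symm := by
    funext i
    simp
  rw [h2]
  exact h1.comp π.symm.injective

lemma alt_of_strictMono (col : W → κ) {q : ℕ} (x : Fin q → W) (hx : StrictMono (col ∘ x)) :
    alt col x = Finsupp.single x 1 := by
  classical
  unfold alt
  rw [Finset.sum_eq_single (1 : Equiv.Perm (Fin q))]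
  · simp [hx]
  · intro π _ hπ
    rw [if_neg, smul_zero]
    intro h
    apply hπ
    have h1 : StrictMono (π : Fin q → Fin q) := by
      intro a b hab
      have h2 := h hab
      exact hx.lt_iff_lt.1 h2
    ext a
    have h3 : (π : Fin q → Fin q) = id := by
      have h4 := h1.range_inj (g := id) strictMono_id
      rw [← h4]
      simp [Set.range_eq_univ.2 π.surjective]
    rw [h3]
    rfl
  · intro h
    exact absurd (Finset.mem_univ _) h

lemma exists_sort (col : W → κ) {q : ℕ} (x : Fin q → W) (hx : Function.Injective (col ∘ x)) :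
    ∃ π : Equiv.Perm (Fin q), StrictMono (col ∘ x ∘ π) := by
  refine ⟨Tuple.sort (col ∘ x), ?_⟩
  have h1 : Monotone ((col ∘ x) ∘ Tuple.sort (col ∘ x)) := Tuple.monotone_sort _
  exact h1.strictMono_of_injective (hx.comp (Tuple.sort _).injective)

/-- the identity for a tuple with increasing colours, up to a permutation. -/
lemma alt_bd_inj (col : W → κ) (q : ℕ) (x : Fin (q + 1) → W) (π : Equiv.Perm (Fin (q + 1)))
    (hx : StrictMono (col ∘ x)) :
    bdT (alt col (x ∘ π)) =
      ∑ i : Fin (q + 1), (-1 : ℤ) ^ (i : ℕ) • alt col ((x ∘ π) ∘ i.succAbove) := by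
  rw [alt_comp_perm, alt_of_strictMono col x hx, map_smul, bdT_single, Finset.smul_sum]
  symm
  refine Fintype.sum_equiv π _ _ fun i => ?_
  obtain ⟨ρ, h1, h2⟩ := exists_restrict π i
  have h3 : (x ∘ π) ∘ i.succAbove = (x ∘ (π i).succAbove) ∘ ρ := by
    rw [Function.comp_assoc, h1, ← Function.comp_assoc]
  rw [h3, alt_comp_perm, alt_of_strictMono col _
    (show StrictMono (col ∘ (x ∘ (π i).succAbove)) from
      hx.comp (Fin.strictMono_succAbove _)), h2, smul_smul, smul_smul]
  congr 1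
  have h4 : ((-1 : ℤ) ^ (i : ℕ)) * (-1) ^ (i : ℕ) = 1 := by
    rw [← mul_pow]; norm_num
  calc (-1 : ℤ) ^ (i : ℕ) * ((-1) ^ (i : ℕ) * (-1) ^ (π i : ℕ) * (Equiv.Perm.sign π : ℤ))
      = ((-1 : ℤ) ^ (i : ℕ) * (-1) ^ (i : ℕ)) * ((-1) ^ (π i : ℕ) * (Equiv.Perm.sign π : ℤ)) := by
        ring
    _ = _ := by rw [h4]; ring

theorem alt_bd (col : W → κ) (q : ℕ) (x : Fin (q + 1) → W)
    (hx : ∀ i j, col (x i) = col (x j) → x i = x j) :
    bdT (alt col x) = ∑ i : Fin (q + 1), (-1 : ℤ) ^ (i : ℕ) • alt col (x ∘ i.succAbove) := by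
  by_cases hinj : Function.Injective x
  · have h1 : Function.Injective (col ∘ x) := fun i j h => hinj (hx i j h)
    obtain ⟨π, hπ⟩ := exists_sort col x h1
    have h2 : x = (x ∘ π) ∘ (π⁻¹ : Equiv.Perm (Fin (q + 1))) := by
      funext i
      simp
    have h3 := alt_bd_inj col q (x ∘ π) π⁻¹ hπ
    rwa [← h2] at h3
  · rw [alt_eq_zero col x hinj, map_zero]
    have hex : ∃ a b : Fin (q + 1), a ≠ b ∧ x a = x b := by
      unfold Function.Injective at hinj
      push Not at hinj
      obtain ⟨a, b, h1, h2⟩ := hinj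
      exact ⟨a, b, h2, h1⟩
    obtain ⟨a, b, hab, hxab⟩ := hex
    have hzero : ∀ i, i ≠ a → i ≠ b → alt col (x ∘ i.succAbove) = 0 := by
      intro i hia hib
      refine alt_eq_zero col _ fun hi => ?_
      obtain ⟨a', ha'⟩ := Fin.exists_succAbove_eq hia.symm
      obtain ⟨b', hb'⟩ := Fin.exists_succAbove_eq hib.symm
      have h1 : a' = b' := hi (by simp only [Function.comp_apply, ha', hb', hxab])
      exact hab (by rw [← ha', ← hb', h1])
    rw [← Finset.add_sum_erase _ _ (Finset.mem_univ a),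
      ← Finset.add_sum_erase _ _ (Finset.mem_erase.2 ⟨hab.symm, Finset.mem_univ b⟩),
      Finset.sum_eq_zero, add_zero]
    · obtain ⟨ρ, h1, h2⟩ := exists_restrict (Equiv.swap a b) a
      rw [Equiv.swap_apply_left] at h1 h2
      have h3 : x ∘ a.succAbove = (x ∘ b.succAbove) ∘ ρ := by
        have h4 : x = x ∘ (Equiv.swap a b) := by
          funext i
          simp only [Function.comp_apply]
          rcases eq_or_ne i a with rfl | hia
          · rw [Equiv.swap_apply_left, hxab]
          · rcases eq_or_ne i b with rfl | hib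
            · rw [Equiv.swap_apply_right, hxab]
            · rw [Equiv.swap_apply_of_ne_of_ne hia hib]
        conv_lhs => rw [h4]
        rw [Function.comp_assoc, h1, ← Function.comp_assoc]
      rw [h3, alt_comp_perm, h2, Equiv.Perm.sign_swap hab, smul_smul, ← add_smul]
      have h5 : ((-1 : ℤ) ^ (a : ℕ)) * (-1) ^ (a : ℕ) = 1 := by
        rw [← mul_pow]; norm_num
      have h6 : (-1 : ℤ) ^ (a : ℕ) * ((-1) ^ (a : ℕ) * (-1) ^ (b : ℕ) * ((-1 : ℤˣ) : ℤ)) +
          (-1) ^ (b : ℕ) = 0 := by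
        push_cast
        calc _ = ((-1 : ℤ) ^ (a : ℕ) * (-1) ^ (a : ℕ)) * ((-1) ^ (b : ℕ) * (-1)) +
            (-1) ^ (b : ℕ) := by ring
          _ = 0 := by rw [h5]; ring
      rw [h6, zero_smul]
    · intro i hi
      rw [Finset.mem_erase, Finset.mem_erase] at hi
      rw [hzero i hi.2.1 hi.1, smul_zero]

lemma altL_single {V : Type} (w : V → W) (col : W → κ) (q : ℕ) (x : Fin q → V) (a : ℤ) :
    altL w col q (Finsupp.single x a) = a • alt col (w ∘ x) := by
  simp [altL]

theorem altL_bd {V : Type} (w : V → W) (col : W → κ) (q : ℕ) (c : (Fin (q + 1) → V) →₀ ℤ)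
    (hc : ∀ x ∈ c.support, ∀ i j, col (w (x i)) = col (w (x j)) → w (x i) = w (x j)) :
    bdT (altL w col (q + 1) c) = altL w col q (bdT c) := by
  classical
  have h1 : ∀ x ∈ c.support, bdT (altL w col (q + 1) (Finsupp.single x (c x))) =
      altL w col q (bdT (Finsupp.single x (c x))) := by
    intro x hx
    rw [altL_single, map_smul, alt_bd col q (w ∘ x) (hc x hx), bdT_single, map_sum,
      Finset.smul_sum]
    refine Finset.sum_congr rfl fun i _ => ?_
    rw [map_smul, altL_single, smul_comm]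
    rfl
  have h2 : c = ∑ x ∈ c.support, Finsupp.single x (c x) := (Finsupp.sum_single c).symm
  conv_lhs => rw [h2]
  conv_rhs => rw [h2]
  rw [map_sum, map_sum, map_sum, map_sum]
  exact Finset.sum_congr rfl h1

end Pool.Agent.LibCG83
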