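import Pool.Agent.LibCG83.Defs

/-!
Row R4: one step of the staircase.
-/

set_option autoImplicit false

namespace Pool.Agent.LibCG83

open CategoryTheory

variable {G : Type} [Group G]

theorem step {S S' : ShortComplex (Rep.{0} ℤ G)} (hS : S.ShortExact) (hS' : S'.ShortExact)
    (φ : S ⟶ S') (n : ℕ) (h0 : Subsingleton (groupHomology S'.X₂ (n + 1)))
    (u : groupHomology S.X₃ (n + 1))
    (hu : ((groupHomology.functor ℤ G (n + 1)).map φ.τ₃).hom u ≠ 0) :
    ((groupHomology.functor ℤ G n).map φ.τ₁).hom
      ((groupHomology.δ hS (n + 1) n rfl).hom u) ≠ 0 := by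
  have hnat := HomologicalComplex.HomologySequence.δ_naturality
    ((groupHomology.chainsFunctor ℤ G).mapShortComplex.map φ)
    (groupHomology.map_chainsFunctor_shortExact hS)
    (groupHomology.map_chainsFunctor_shortExact hS') (n + 1) n rfl
  have hnat' : groupHomology.δ hS (n + 1) n rfl ≫ (groupHomology.functor ℤ G n).map φ.τ₁ =
      (groupHomology.functor ℤ G (n + 1)).map φ.τ₃ ≫ groupHomology.δ hS' (n + 1) n rfl := hnat
  have h1 : ((groupHomology.functor ℤ G n).map φ.τ₁).hom
      ((groupHomology.δ hS (n + 1) n rfl).hom u) =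
      (groupHomology.δ hS' (n + 1) n rfl).hom
        (((groupHomology.functor ℤ G (n + 1)).map φ.τ₃).hom u) :=
    congrArg (fun f => f.hom u) hnat'
  rw [h1]
  have hmono : Mono (groupHomology.δ hS' (n + 1) n rfl) :=
    groupHomology.mono_δ_of_isZero hS' n (ModuleCat.isZero_of_subsingleton _)
  have hinj := (ModuleCat.mono_iff_injective _).1 hmono
  intro h2
  apply hu
  apply hinj
  exact h2.trans (map_zero (groupHomology.δ hS' (n + 1) n rfl).hom).symm

end Pool.Agent.LibCG83
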