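import Pool.Agent.LibCG83.R4

/-!
Row R5: the staircase.
-/

set_option autoImplicit false

namespace Pool.Agent.LibCG83

open CategoryTheory CategoryTheory.Limits

variable {G : Type} [Group G]

/-- one step, for maps which need not be surjective in the target. -/
lemma stair_step {A X Y A' X' Y' : Rep.{0} ℤ G} (i : A ⟶ X) (g : X ⟶ Y) (i' : A' ⟶ X')
    (g' : X' ⟶ Y') (w : i ≫ g = 0) (w' : i' ≫ g' = 0)
    (hS : (ShortComplex.mk i g w).ShortExact) [Mono i'] (hS' : (ShortComplex.mk i' g' w').Exact)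
    (a : A ⟶ A') (b : X ⟶ X') (c : Y ⟶ Y') (h1 : a ≫ i' = i ≫ b) (h2 : b ≫ g' = g ≫ c) (m : ℕ)
    (h0 : Subsingleton (groupHomology X' (m + 1))) (u : groupHomology Y (m + 1))
    (hu : ((groupHomology.functor ℤ G (m + 1)).map c).hom u ≠ 0) :
    ∃ v : groupHomology A m, ((groupHomology.functor ℤ G m).map a).hom v ≠ 0 := by
  have hg : Epi g := hS.epi_g
  have w'' : i' ≫ factorThruImage g' = 0 := by
    rw [← cancel_mono (image.ι g'), Category.assoc, image.fac, w', zero_comp]
  have hS'' : (ShortComplex.mk i' (factorThruImage g') w'').ShortExact := by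
    have hk : IsLimit (KernelFork.ofι i' w') := hS'.fIsKernel
    have hk2 : IsLimit (KernelFork.ofι i' w'') :=
      isKernelOfComp (f := factorThruImage g') (image.ι g') g' hk w'' (image.fac g')
    exact ⟨ShortComplex.exact_of_f_is_kernel _ hk2⟩
  have sq : CommSq (b ≫ factorThruImage g') g (image.ι g') c :=
    ⟨by rw [Category.assoc, image.fac, h2]⟩
  have : StrongEpi g := strongEpi_of_epi g
  let φ : ShortComplex.mk i g w ⟶ ShortComplex.mk i' (factorThruImage g') w'' :=
    { τ₁ := a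
      τ₂ := b
      τ₃ := sq.lift
      comm₁₂ := h1
      comm₂₃ := sq.fac_left.symm }
  refine ⟨(groupHomology.δ hS (m + 1) m rfl).hom u, step hS hS'' φ m h0 u fun h3 => hu ?_⟩
  have h4 : c = sq.lift ≫ image.ι g' := sq.fac_right.symm
  rw [h4, Functor.map_comp]
  have h5 : (((groupHomology.functor ℤ G (m + 1)).map sq.lift ≫
      (groupHomology.functor ℤ G (m + 1)).map (image.ι g')).hom u) =
      ((groupHomology.functor ℤ G (m + 1)).map (image.ι g')).hom
        (((groupHomology.functor ℤ G (m + 1)).map sq.lift).hom u) := rfl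
  rw [h5]
  have h6 : ((groupHomology.functor ℤ G (m + 1)).map sq.lift).hom u = 0 := h3
  rw [h6]
  exact map_zero _

theorem staircase (N n : ℕ) (hN : N + 1 ≤ n) (D D' : ℕ → Rep.{0} ℤ G)
    (d : ∀ q, D (q + 1) ⟶ D q) (d' : ∀ q, D' (q + 1) ⟶ D' q) (φ : ∀ q, D q ⟶ D' q)
    (hd : ∀ q, d (q + 1) ≫ d q = 0) (hd' : ∀ q, d' (q + 1) ≫ d' q = 0)
    (hφ : ∀ q, φ (q + 1) ≫ d' q = d q ≫ φ q)
    (hsurj : Function.Surjective (d 0).hom)
    (hex : ∀ q ≤ N, ∀ c : D (q + 1), (d q).hom c = 0 → ∃ b : D (q + 2), (d (q + 1)).hom b = c)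
    (hzero : ∀ c : D' (N + 2), c = 0)
    (hv : ∀ q ≤ N, Subsingleton (groupHomology (D' (q + 1)) (n - q)))
    (u : groupHomology (D 0) n) :
    ((groupHomology.functor ℤ G n).map (φ 0)).hom u = 0 := by
  by_contra hu
  -- the maps onto the kernels
  let e : ∀ q, D (q + 2) ⟶ kernel (d q) := fun q => kernel.lift (d q) (d (q + 1)) (hd q)
  let e' : ∀ q, D' (q + 2) ⟶ kernel (d' q) := fun q => kernel.lift (d' q) (d' (q + 1)) (hd' q)
  let ψ : ∀ q, kernel (d q) ⟶ kernel (d' q) := fun q => kernel.map (d q) (d' q) (φ (q + 1)) (φ q)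
    (hφ q).symm
  have he : ∀ q, e q ≫ kernel.ι (d q) = d (q + 1) := fun q => kernel.lift_ι _ _ _
  have he' : ∀ q, e' q ≫ kernel.ι (d' q) = d' (q + 1) := fun q => kernel.lift_ι _ _ _
  have hψ : ∀ q, ψ q ≫ kernel.ι (d' q) = kernel.ι (d q) ≫ φ (q + 1) := fun q => kernel.lift_ι _ _ _
  have hepi : ∀ q ≤ N, Epi (e q) := by
    intro q hq
    rw [Rep.epi_iff_surjective]
    intro z
    obtain ⟨b, hb⟩ := hex q hq ((kernel.ι (d q)).hom z) (by
      have := congrArg (fun f => f.hom z) (kernel.condition (d q))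
      exact this)
    refine ⟨b, ?_⟩
    have hm : Function.Injective (kernel.ι (d q)).hom :=
      (Rep.mono_iff_injective (kernel.ι (d q))).1 inferInstance
    apply hm
    have h1 : (e q ≫ kernel.ι (d q)).hom b = (d (q + 1)).hom b := by rw [he]
    exact h1.trans hb
  have hepi0 : Epi (d 0) := by
    rw [Rep.epi_iff_surjective]
    exact hsurj
  have hsq : ∀ q, φ (q + 2) ≫ e' q = e q ≫ ψ q := by
    intro q
    rw [← cancel_mono (kernel.ι (d' q)), Category.assoc, Category.assoc, he', hψ, hφ (q + 1),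
      ← Category.assoc, he]
  -- the induction
  have key : ∀ q ≤ N, ∃ v : groupHomology (kernel (d q)) (n - q - 1),
      ((groupHomology.functor ℤ G (n - q - 1)).map (ψ q)).hom v ≠ 0 := by
    intro q
    induction q with
    | zero =>
      intro _
      obtain ⟨m, rfl⟩ : ∃ m, n = m + 1 := ⟨n - 1, by omega⟩
      refine stair_step (kernel.ι (d 0)) (d 0) (kernel.ι (d' 0)) (d' 0) (kernel.condition _)
        (kernel.condition _) ?_ ?_ (ψ 0) (φ 1) (φ 0) (hψ 0) (hφ 0) m (hv 0 (Nat.zero_le _)) u hu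
      · exact ⟨ShortComplex.exact_of_f_is_kernel _ (kernelIsKernel (d 0))⟩
      · exact ShortComplex.exact_of_f_is_kernel _ (kernelIsKernel (d' 0))
    | succ q ih =>
      intro hq
      obtain ⟨v, hvv⟩ := ih (by omega)
      obtain ⟨m, hm⟩ : ∃ m, n - q - 1 = m + 1 := ⟨n - q - 2, by omega⟩
      have hm2 : n - (q + 1) - 1 = m := by omega
      have hm3 : n - (q + 1) = m + 1 := by omega
      have hvq := hv (q + 1) hq
      rw [hm3] at hvq
      rw [hm2]
      revert hvv
      revert v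
      rw [hm]
      intro v hvv
      have w : kernel.ι (d (q + 1)) ≫ e q = 0 := by
        rw [← cancel_mono (kernel.ι (d q)), Category.assoc, he, kernel.condition, zero_comp]
      have w' : kernel.ι (d' (q + 1)) ≫ e' q = 0 := by
        rw [← cancel_mono (kernel.ι (d' q)), Category.assoc, he', kernel.condition, zero_comp]
      have := hepi q (by omega)
      refine stair_step (kernel.ι (d (q + 1))) (e q) (kernel.ι (d' (q + 1))) (e' q) w w' ?_ ?_
        (ψ (q + 1)) (φ (q + 2)) (ψ q) (hψ (q + 1)) (hsq q) m hvq v hvv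
      · exact ⟨ShortComplex.exact_of_f_is_kernel _
          (isKernelOfComp (f := e q) (kernel.ι (d q)) (d (q + 1)) (kernelIsKernel (d (q + 1))) w
            (he q))⟩
      · exact ShortComplex.exact_of_f_is_kernel _
          (isKernelOfComp (f := e' q) (kernel.ι (d' q)) (d' (q + 1))
            (kernelIsKernel (d' (q + 1))) w' (he' q))
  obtain ⟨v, hvv⟩ := key N le_rfl
  apply hvv
  have := hepi N le_rfl
  have h1 : ψ N = 0 := by
    rw [← cancel_epi (e N), ← hsq N, comp_zero]
    have h2 : φ (N + 2) = 0 := by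
      apply Rep.hom_ext
      exact DFunLike.ext _ _ fun x => (hzero _).trans (hzero _).symm
    rw [h2, zero_comp]
  rw [h1, Functor.map_zero]
  rfl

end Pool.Agent.LibCG83
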